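import Pool.Agent.Results.MP_72200a_co.RegularBooleanClosedForm

/-!
Regular Boolean matrices: error terms for the asymptotic formulas.
-/

set_option autoImplicit false

namespace Pool.Agent.Y415.RB

open Finset Filter Topology
open Pool.Agent.Results.MP_72200a_co.RegularBooleanClosedForm

/-- polynomial times exponential decay beats a slower exponential -/
lemma decayE (a : ℕ) (C q r : ℝ) (hq0 : 0 ≤ q) (hq : q < r) :
    ∀ᶠ n : ℕ in atTop, C * (n : ℝ) ^ a * q ^ n ≤ r ^ n := by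
  have hr : 0 < r := lt_of_le_of_lt hq0 hq
  have h := (tendsto_pow_const_mul_const_pow_of_abs_lt_one a (r := q / r)
    (by rw [abs_of_nonneg (by positivity)]; exact (div_lt_one hr).2 hq)).const_mul C
  rw [mul_zero] at h
  filter_upwards [h.eventually (eventually_le_nhds (show (0:ℝ) < 1 by norm_num))] with n hn
  have h2 : 0 < r ^ n := by positivity
  rw [div_pow] at hn
  calc C * (n : ℝ) ^ a * q ^ n = (C * ((n : ℝ) ^ a * (q ^ n / r ^ n))) * r ^ n := by
        field_simp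
    _ ≤ 1 * r ^ n := mul_le_mul_of_nonneg_right hn h2.le
    _ = r ^ n := one_mul _

theorem J_le : ∀ᶠ n : ℕ in atTop, J n ≤ (1/2)^n * ff n := by
  have hev : ∀ᶠ n : ℕ in atTop, (n:ℝ) ≤ ((2:ℝ)^(0.0001:ℝ))^n := by
    have h1 : Tendsto (fun n : ℕ => (n:ℝ)^1 * (((2:ℝ)^(0.0001:ℝ))⁻¹)^n) atTop (𝓝 0) := by
      apply tendsto_pow_const_mul_const_pow_of_abs_lt_one
      rw [abs_of_pos (by positivity)]
      apply inv_lt_one_of_one_lt₀
      exact Real.one_lt_rpow (by norm_num) (by norm_num)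
    filter_upwards [h1.eventually (gt_mem_nhds (show (0:ℝ) < 1 by norm_num))] with n hn
    have hp : (0:ℝ) < ((2:ℝ)^(0.0001:ℝ))^n := by positivity
    rw [pow_one, inv_pow, ← div_eq_mul_inv, div_lt_one hp] at hn
    exact hn.le
  filter_upwards [hev, eventually_ge_atTop 10000000] with n hn hn1
  have hn1' : (10000000:ℝ) ≤ n := by exact_mod_cast hn1
  have hn2 : (n:ℝ)^n ≤ (2:ℝ)^(0.0001 * (n:ℝ)^2) := by
    calc (n:ℝ)^n ≤ (((2:ℝ)^(0.0001:ℝ))^n)^n := pow_le_pow_left₀ (by positivity) hn n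
      _ = (2:ℝ)^(0.0001 * (n:ℝ)^2) := by
        rw [← pow_mul, ← Real.rpow_natCast, ← Real.rpow_mul (by norm_num)]
        congr 1
        push_cast
        ring
  have hn3 : (n:ℝ) + 1 ≤ (2:ℝ)^(n:ℝ) := by
    rw [Real.rpow_natCast]
    exact_mod_cast Nat.lt_two_pow_self
  have hn4 : (4:ℝ)^n = (2:ℝ)^(2 * (n:ℝ)) := by
    rw [show (4:ℝ) = 2^2 by norm_num, ← pow_mul, ← Real.rpow_natCast]
    push_cast
    rfl
  have hfin : J n ≤ (1/2)^n * (2:ℝ)^(((n:ℝ)^2 - 1)/2) := by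
    unfold J
    calc ((n:ℝ)+1) * (4^n * (n:ℝ)^n * (2:ℝ)^(0.4994 * (n:ℝ)^2 + 300 * n + 1000))
        ≤ (2:ℝ)^(n:ℝ) * ((2:ℝ)^(2 * (n:ℝ)) * (2:ℝ)^(0.0001 * (n:ℝ)^2) * (2:ℝ)^(0.4994 * (n:ℝ)^2 + 300 * n + 1000)) := by
          rw [hn4]
          gcongr
      _ = (2:ℝ)^((n:ℝ) + (2 * n + 0.0001 * (n:ℝ)^2 + (0.4994 * (n:ℝ)^2 + 300 * n + 1000))) := by
          rw [Real.rpow_add (by norm_num) (n:ℝ), Real.rpow_add (by norm_num) (2 * (n:ℝ) + _),
            Real.rpow_add (by norm_num) (2 * (n:ℝ))]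
      _ ≤ (2:ℝ)^(-(n:ℝ) + ((n:ℝ)^2 - 1)/2) := by
          apply Real.rpow_le_rpow_of_exponent_le (by norm_num)
          nlinarith
      _ = (1/2)^n * (2:ℝ)^(((n:ℝ)^2 - 1)/2) := by
          rw [Real.rpow_add (by norm_num), Real.rpow_neg (by norm_num), Real.rpow_natCast, one_div, inv_pow]
  exact hfin.trans (mul_le_mul_of_nonneg_left (ff_ge n) (by positivity))

theorem ff_pos (n : ℕ) : (0:ℝ) < ff n := lt_of_lt_of_le (by positivity) (ff_ge n)

theorem rel_error (r : ℝ) (hr : 991/1000 < r) :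
    ∀ᶠ n : ℕ in atTop, |(numRegular n : ℝ) / ff n - 1| ≤ r ^ n := by
  have hr0 : 0 < r := lt_trans (by norm_num) hr
  filter_upwards [decayE 1 (8 * 65536 * 13) (991/1000) r (by norm_num) hr,
    decayE 1 (65536 * 13) (991/1000) 1 (by norm_num) (by norm_num),
    decayE 0 4 (1/2) r (by norm_num) (by linarith),
    decayE 2 8 (17/20) r (by norm_num) (by linarith),
    decayE 2 2 (17/20) 1 (by norm_num) (by norm_num), J_le, eventually_ge_atTop 1000]
    with n h1 h2 h3 h4 h5 h6 hn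
  have hff := ff_pos n
  have hn1 : (1:ℝ) ≤ n := by exact_mod_cast (by omega : 1 ≤ n)
  rw [pow_one] at h1 h2
  rw [one_pow] at h2 h5
  rw [pow_zero, mul_one] at h3
  have hrn : 0 < r ^ n := by positivity
  have h9 : (0:ℝ) < (991/1000)^n := by positivity
  have h17 : (0:ℝ) < (17/20)^n := by positivity
  set x : ℝ := 65536 * (991/1000)^n * (n + 12) with hx
  have hx0 : 0 ≤ x := by positivity
  have hx1 : x ≤ 65536 * 13 * n * (991/1000)^n := by
    rw [hx]
    nlinarith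
  have hx2 : 2 * x ≤ r ^ n / 4 := by
    have : 8 * x ≤ 8 * 65536 * 13 * n * (991/1000)^n := by nlinarith
    linarith
  have hx3 : x ≤ 1 := by linarith
  have hJ : J n / ff n ≤ (1/2)^n := by
    rw [div_le_iff₀ hff]
    exact h6
  have hJ0 : 0 ≤ J n / ff n := by
    refine div_nonneg ?_ hff.le
    unfold J
    positivity
  have hup : (numRegular n : ℝ) / ff n ≤ Real.exp x + J n / ff n := by
    have h := upper n hn
    rw [div_le_iff₀ hff]
    have : (Real.exp x + J n / ff n) * ff n = Real.exp x * ff n + J n := by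
      have := hff.ne'
      field_simp
    rw [this, hx]
    exact h
  have hexp : Real.exp x ≤ 1 + 2 * x := by
    have := Real.abs_exp_sub_one_le (x := x) (by rw [abs_of_nonneg hx0]; exact hx3)
    rw [abs_of_nonneg hx0] at this
    have := (abs_le.1 this).2
    linarith
  set y : ℝ := 2 * (n:ℝ)^2 * (17/20)^n with hy
  have hy0 : 0 ≤ y := by positivity
  have hy1 : y ≤ r ^ n / 4 := by
    have : 4 * y = 8 * (n:ℝ)^2 * (17/20)^n := by rw [hy]; ring
    linarith
  have hlow : (1 - y) * (1 - J n / ff n) ≤ (numRegular n : ℝ) / ff n := by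
    have h := lower n (by omega) (by rw [← hy]; linarith)
    rw [le_div_iff₀ hff]
    have : (1 - y) * (1 - J n / ff n) * ff n = (1 - y) * (ff n - J n) := by
      have := hff.ne'
      field_simp
    rw [this, hy]
    exact h
  generalize J n / ff n = z at *
  rw [abs_le]
  constructor
  · have : 1 - y - z ≤ (1 - y) * (1 - z) := by nlinarith
    linarith
  · linarith

theorem stir_up (m : ℕ) (hm : 1 ≤ m) :
    Stirling.stirlingSeq m ≤ √Real.pi * Real.exp (1 / (12 * m)) := by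
  have hmono : Monotone (fun k : ℕ =>
      Real.log (Stirling.stirlingSeq (k + 1)) - 1 / (12 * ((k:ℝ) + 1))) := by
    apply monotone_nat_of_le_succ
    intro k
    have h := Stirling.log_stirlingSeq_sdiff_le (k + 1)
    have e : (1:ℝ) / (12 * ((k + 1 : ℕ):ℝ) * (((k + 1 : ℕ):ℝ) + 1)) =
        1 / (12 * ((k:ℝ) + 1)) - 1 / (12 * (((k + 1 : ℕ):ℝ) + 1)) := by
      push_cast
      field_simp
      ring
    rw [e] at h
    linarith
  have hlim : Tendsto (fun k : ℕ =>
      Real.log (Stirling.stirlingSeq (k + 1)) - 1 / (12 * ((k:ℝ) + 1))) atTop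
      (𝓝 (Real.log (√Real.pi))) := by
    have h1 : Tendsto (fun k : ℕ => Real.log (Stirling.stirlingSeq (k+1))) atTop
        (𝓝 (Real.log √Real.pi)) :=
      (Real.continuousAt_log (by positivity)).tendsto.comp
        (Stirling.tendsto_stirlingSeq_sqrt_pi.comp (tendsto_add_atTop_nat 1))
    have h2 : Tendsto (fun k : ℕ => 1 / (12 * ((k:ℝ) + 1))) atTop (𝓝 0) := by
      have := (tendsto_one_div_add_atTop_nhds_zero_nat (𝕜 := ℝ)).const_mul (1/12)
      simp only [mul_zero] at this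
      refine this.congr fun k => by field_simp
    simpa using h1.sub h2
  obtain ⟨k, rfl⟩ : ∃ k, m = k + 1 := ⟨m - 1, by omega⟩
  have h3 := hmono.ge_of_tendsto hlim k
  have hp := Stirling.stirlingSeq'_pos k
  have h4 : Real.log (Stirling.stirlingSeq (k + 1)) ≤
      Real.log √Real.pi + 1 / (12 * ((k + 1 : ℕ):ℝ)) := by
    push_cast
    linarith
  calc Stirling.stirlingSeq (k + 1) = Real.exp (Real.log (Stirling.stirlingSeq (k + 1))) :=
        (Real.exp_log hp).symm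
    _ ≤ Real.exp (Real.log √Real.pi + 1 / (12 * ((k + 1 : ℕ):ℝ))) := Real.exp_le_exp.2 h4
    _ = _ := by rw [Real.exp_add, Real.exp_log (by positivity)]

theorem exp_small (x : ℝ) (h0 : 0 ≤ x) (h1 : x ≤ 1) : Real.exp x ≤ 1 + 2 * x := by
  have := Real.abs_exp_sub_one_le (x := x) (by rw [abs_of_nonneg h0]; exact h1)
  rw [abs_of_nonneg h0] at this
  have := (abs_le.1 this).2
  linarith

theorem q_even_rate (m : ℕ) (hm : 1 ≤ m) : |q (2*m) m - 1| ≤ 1 / m := by
  rw [q_even m hm]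
  have hm0 : (1:ℝ) ≤ m := by exact_mod_cast hm
  have hP : 0 < √Real.pi := by positivity
  have l1 : √Real.pi ≤ Stirling.stirlingSeq m := Stirling.sqrt_pi_le_stirlingSeq (by omega)
  have l2 : √Real.pi ≤ Stirling.stirlingSeq (2*m) := Stirling.sqrt_pi_le_stirlingSeq (by omega)
  have u1 := stir_up m hm
  have u2 := stir_up (2*m) (by omega)
  have hE3 : Real.exp (1 / (12 * (m:ℝ))) ^ 3 ≤ 1 + 1 / (2 * m) := by
    rw [← Real.exp_nat_mul]
    have h := exp_small (1 / (4 * (m:ℝ))) (by positivity) (by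
      rw [div_le_one (by positivity)]; linarith)
    have e : ((3:ℕ):ℝ) * (1 / (12 * (m:ℝ))) = 1 / (4 * (m:ℝ)) := by
      push_cast
      field_simp
      norm_num
    rw [e]
    refine h.trans (le_of_eq ?_)
    field_simp
    ring
  have hE2 : Real.exp (1 / (12 * ((2 * m : ℕ):ℝ))) ^ 2 ≤ 1 + 1 / m := by
    rw [← Real.exp_nat_mul]
    have h := exp_small (1 / (12 * (m:ℝ))) (by positivity) (by
      rw [div_le_one (by positivity)]; linarith)
    have e : ((2:ℕ):ℝ) * (1 / (12 * ((2 * m : ℕ):ℝ))) = 1 / (12 * (m:ℝ)) := by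
      push_cast
      field_simp
    rw [e]
    refine h.trans ?_
    have h2 : 2 * (1 / (12 * (m:ℝ))) = (1 / m) / 6 := by
      field_simp
      norm_num
    rw [h2]
    have : 0 < 1 / (m:ℝ) := by positivity
    linarith
  have hE0 : 0 < Real.exp (1 / (12 * (m:ℝ))) := Real.exp_pos _
  have hE20 : 0 < Real.exp (1 / (12 * ((2 * m : ℕ):ℝ))) := Real.exp_pos _
  generalize Real.exp (1 / (12 * (m:ℝ))) = E at *
  generalize Real.exp (1 / (12 * ((2 * m : ℕ):ℝ))) = E2 at *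
  generalize √Real.pi = P at *
  generalize Stirling.stirlingSeq m = S at *
  generalize Stirling.stirlingSeq (2*m) = T at *
  have hS : 0 < S := by linarith
  have hT : 0 < T := by linarith
  have hinv : 0 < 1 / (m:ℝ) := by positivity
  have hinv1 : 1 / (m:ℝ) ≤ 1 := by rw [div_le_one (by positivity)]; exact hm0
  have e2 : 1 / (2 * (m:ℝ)) = (1 / m) / 2 := by field_simp
  rw [e2] at hE3
  generalize 1 / (m:ℝ) = d at *
  have hS3 : S ^ 3 ≤ P ^ 3 * (1 + d / 2) := by
    calc S ^ 3 ≤ (P * E) ^ 3 := pow_le_pow_left₀ hS.le u1 3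
      _ = P ^ 3 * E ^ 3 := by ring
      _ ≤ P ^ 3 * (1 + d / 2) := mul_le_mul_of_nonneg_left hE3 (by positivity)
  have hS3' : P ^ 3 ≤ S ^ 3 := pow_le_pow_left₀ hP.le l1 3
  have hT2 : T ^ 2 ≤ P ^ 2 * (1 + d) := by
    calc T ^ 2 ≤ (P * E2) ^ 2 := pow_le_pow_left₀ hT.le u2 2
      _ = P ^ 2 * E2 ^ 2 := by ring
      _ ≤ P ^ 2 * (1 + d) := mul_le_mul_of_nonneg_left hE2 (by positivity)
  have hT2' : P ^ 2 ≤ T ^ 2 := pow_le_pow_left₀ hP.le l2 2
  have hS3pos : 0 < S ^ 3 := by positivity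
  rw [div_mul_eq_mul_div, abs_le]
  constructor
  · have h1 : (1 - d) ≤ T ^ 2 * P / S ^ 3 := by
      rw [le_div_iff₀ hS3pos]
      calc (1 - d) * S ^ 3 ≤ (1 - d) * (P ^ 3 * (1 + d / 2)) :=
            mul_le_mul_of_nonneg_left hS3 (by linarith)
        _ = P ^ 3 * ((1 - d) * (1 + d / 2)) := by ring
        _ ≤ P ^ 3 * 1 := by
            apply mul_le_mul_of_nonneg_left _ (by positivity)
            nlinarith
        _ = P ^ 2 * P := by ring
        _ ≤ T ^ 2 * P := mul_le_mul_of_nonneg_right hT2' hP.le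
    linarith
  · have h1 : T ^ 2 * P / S ^ 3 ≤ 1 + d := by
      rw [div_le_iff₀ hS3pos]
      calc T ^ 2 * P ≤ P ^ 2 * (1 + d) * P := mul_le_mul_of_nonneg_right hT2 hP.le
        _ = (1 + d) * P ^ 3 := by ring
        _ ≤ (1 + d) * S ^ 3 := mul_le_mul_of_nonneg_left hS3' (by linarith)
    linarith

/-- the factor for odd `n` -/
noncomputable def phi (m : ℕ) : ℝ := ((2*(m:ℝ)+1)/(m+1))^2 * √((2*m+1)/(2*m)) *
  Real.exp (1/2) / 4 / (1 + (1/2)/(m:ℝ))^m

theorem phi_rate (m : ℕ) (hm : 1 ≤ m) : |phi m - 1| ≤ 1 / m := by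
  have hm0 : (1:ℝ) ≤ m := by exact_mod_cast hm
  have hmp : (0:ℝ) < m := by linarith
  have hinv : 0 < 1 / (m:ℝ) := by positivity
  have hinv1 : 1 / (m:ℝ) ≤ 1 := by rw [div_le_one (by positivity)]; exact hm0
  -- the root
  have hs1 : 1 ≤ √((2*(m:ℝ)+1)/(2*m)) := by
    rw [Real.one_le_sqrt, le_div_iff₀ (by positivity)]
    linarith
  have hs2 : √((2*(m:ℝ)+1)/(2*m)) ≤ 1 + (1/m)/2 := by
    have h1 : (2*(m:ℝ)+1)/(2*m) = 1 + (1/m)/2 := by field_simp
    rw [h1]
    have h2 : (1:ℝ) ≤ 1 + (1/m)/2 := by linarith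
    calc √(1 + (1/(m:ℝ))/2) ≤ √((1 + (1/(m:ℝ))/2)^2) := by
          apply Real.sqrt_le_sqrt
          nlinarith
      _ = _ := Real.sqrt_sq (by linarith)
  -- the power
  have hp1 : (1 + (1/2)/(m:ℝ))^m ≤ Real.exp (1/2) := by
    have h1 : 1 + (1/2)/(m:ℝ) ≤ Real.exp ((1/2)/m) := by
      have := Real.add_one_le_exp ((1/2)/(m:ℝ))
      linarith
    calc (1 + (1/2)/(m:ℝ))^m ≤ (Real.exp ((1/2)/m))^m := pow_le_pow_left₀ (by positivity) h1 m
      _ = Real.exp (1/2) := by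
        rw [← Real.exp_nat_mul]
        congr 1
        field_simp
  have hp2 : Real.exp (1/2) ≤ (1 + (1/2)/(m:ℝ))^m * (1 + (1/m)/4) := by
    have h1 := Real.le_log_one_add_of_nonneg (x := (1/2)/(m:ℝ)) (by positivity)
    have h2 : (m:ℝ) * (2 * ((1/2)/(m:ℝ)) / ((1/2)/(m:ℝ) + 2)) ≤
        Real.log ((1 + (1/2)/(m:ℝ))^m) := by
      rw [Real.log_pow]
      exact mul_le_mul_of_nonneg_left h1 (by positivity)
    have h3 : (1:ℝ)/2 - 1/(8*m) ≤ (m:ℝ) * (2 * ((1/2)/(m:ℝ)) / ((1/2)/(m:ℝ) + 2)) := by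
      have h4 : (m:ℝ) * (2 * ((1/2)/(m:ℝ)) / ((1/2)/(m:ℝ) + 2)) = 2 * m / (4 * m + 1) := by
        field_simp
        ring
      rw [h4, sub_le_iff_le_add, ← sub_le_iff_le_add']
      have h5 : (1:ℝ)/2 - 2 * m / (4 * m + 1) = 1 / (2 * (4 * m + 1)) := by
        field_simp
        ring
      rw [h5]
      apply one_div_le_one_div_of_le (by positivity)
      linarith
    have h6 : Real.exp (1/2 - 1/(8*m)) ≤ (1 + (1/2)/(m:ℝ))^m := by
      rw [← Real.le_log_iff_exp_le (by positivity)]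
      linarith
    have h7 : Real.exp (1/(8*(m:ℝ))) ≤ 1 + (1/m)/4 := by
      have h := exp_small (1 / (8 * (m:ℝ))) (by positivity) (by
        rw [div_le_one (by positivity)]; linarith)
      refine h.trans (le_of_eq ?_)
      field_simp
      ring
    calc Real.exp (1/2) = Real.exp (1/2 - 1/(8*m)) * Real.exp (1/(8*(m:ℝ))) := by
          rw [← Real.exp_add]
          congr 1
          ring
      _ ≤ _ := mul_le_mul h6 h7 (Real.exp_pos _).le (by positivity)
  have hsq1 : ((2*(m:ℝ)+1)/(m+1))^2 ≤ 4 := by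
    have h1 : (2*(m:ℝ)+1)/(m+1) ≤ 2 := by
      rw [div_le_iff₀ (by positivity)]
      linarith
    have h2 : 0 ≤ (2*(m:ℝ)+1)/(m+1) := by positivity
    nlinarith
  have hsq2 : 4 * (1 - 1/(m:ℝ)) ≤ ((2*(m:ℝ)+1)/(m+1))^2 := by
    have h1 : (2*(m:ℝ)+1)/(m+1) = 2 - 1/(m+1) := by
      field_simp
      ring
    have h2 : 1/((m:ℝ)+1) ≤ 1/m := one_div_le_one_div_of_le hmp (by linarith)
    have h3 : 0 < 1/((m:ℝ)+1) := by positivity
    rw [h1]
    nlinarith
  have hW : 0 < (1 + (1/2)/(m:ℝ))^m := by positivity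
  have hX : 0 < Real.exp ((1:ℝ)/2) := Real.exp_pos _
  unfold phi
  have hA0 : 0 ≤ ((2*(m:ℝ)+1)/(m+1))^2 := by positivity
  generalize ((2*(m:ℝ)+1)/(m+1))^2 = A at *
  generalize √((2*(m:ℝ)+1)/(2*m)) = B at *
  generalize (1 + (1/2)/(m:ℝ))^m = W at *
  generalize Real.exp ((1:ℝ)/2) = X at *
  generalize 1/(m:ℝ) = d at *
  have hB0 : 0 < B := by linarith
  have e : A * B * X / 4 / W = (A / 4) * B * (X / W) := by
    field_simp
  rw [e]
  have hXW1 : 1 ≤ X / W := by rw [le_div_iff₀ hW]; linarith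
  have hXW2 : X / W ≤ 1 + d / 4 := by rw [div_le_iff₀ hW]; linarith
  have hA4 : A / 4 ≤ 1 := by linarith
  have hA4' : 1 - d ≤ A / 4 := by linarith
  have hA40 : 0 ≤ A / 4 := by linarith
  generalize X / W = Y at *
  generalize A / 4 = A' at *
  rw [abs_le]
  constructor
  · have h1 : A' * 1 * 1 ≤ A' * B * Y :=
      mul_le_mul (mul_le_mul_of_nonneg_left hs1 hA40) hXW1 (by norm_num) (by positivity)
    linarith
  · have h1 : A' * B * Y ≤ 1 * (1 + d / 2) * (1 + d / 4) :=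
      mul_le_mul (mul_le_mul hA4 hs2 hB0.le (by norm_num)) hXW2 (by linarith) (by positivity)
    nlinarith

theorem q_center_rate (n : ℕ) (hn : 2 ≤ n) : |q n (n/2) - 1| ≤ 9 / n := by
  have hn0 : (0:ℝ) < n := by exact_mod_cast (by omega : 0 < n)
  rcases Nat.even_or_odd' n with ⟨m, hm | hm⟩
  · have hm1 : 1 ≤ m := by omega
    have h := q_even_rate m hm1
    have e : n / 2 = m := by omega
    have hm0 : (0:ℝ) < m := by exact_mod_cast (by omega : 0 < m)
    rw [e, hm]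
    refine h.trans ?_
    rw [div_le_div_iff₀ hm0 (by push_cast; linarith)]
    push_cast
    linarith
  · have hm1 : 1 ≤ m := by omega
    have h := q_even_rate m hm1
    have h2 := phi_rate m hm1
    have e : n / 2 = m := by omega
    have hm0 : (1:ℝ) ≤ m := by exact_mod_cast hm1
    rw [e, hm, q_odd m hm1]
    change |q (2*m) m * phi m - 1| ≤ _
    have h3 : |q (2*m) m * phi m - 1| ≤ 3 / m := by
      have h4 : q (2*m) m * phi m - 1 = (q (2*m) m - 1) * phi m + (phi m - 1) := by ring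
      have h5 : |phi m| ≤ 2 := by
        have := abs_le.1 h2
        have h6 : 1 / (m:ℝ) ≤ 1 := by rw [div_le_one (by positivity)]; exact hm0
        rw [abs_le]
        constructor <;> linarith
      rw [h4]
      refine (abs_add_le _ _).trans ?_
      rw [abs_mul]
      calc |q (2*m) m - 1| * |phi m| + |phi m - 1| ≤ 1 / m * 2 + 1 / m :=
            add_le_add (mul_le_mul h h5 (abs_nonneg _) (by positivity)) h2
        _ = 3 / m := by ring
    refine h3.trans ?_
    rw [div_le_div_iff₀ (by linarith) (by push_cast; linarith)]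
    push_cast
    linarith

theorem eps_lim : Tendsto (fun n : ℕ => 12 * (2 * Real.log n + 3)^2 / (n:ℝ)) atTop (𝓝 0) := by
  have l2 : Tendsto (fun x : ℝ => Real.log x ^ 2 / x) atTop (𝓝 0) :=
    (Real.isLittleO_pow_log_id_atTop (n := 2)).tendsto_div_nhds_zero
  have l1 : Tendsto (fun x : ℝ => Real.log x ^ 1 / x) atTop (𝓝 0) :=
    (Real.isLittleO_pow_log_id_atTop (n := 1)).tendsto_div_nhds_zero
  have l2' := l2.comp tendsto_natCast_atTop_atTop
  have l1' := l1.comp tendsto_natCast_atTop_atTop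
  have hinv : Tendsto (fun m : ℕ => ((m:ℝ))⁻¹) atTop (𝓝 0) := tendsto_inv_atTop_nhds_zero_nat
  have h := ((l2'.const_mul 48).add (l1'.const_mul 144)).add (hinv.const_mul 108)
  simp only [mul_zero, add_zero] at h
  refine h.congr (fun n => ?_)
  simp only [Function.comp]
  ring

theorem ff_gg_bounds : ∀ᶠ n : ℕ in atTop,
      q n (n/2) * (1 - 12 * (2 * Real.log n + 3)^2 / (n:ℝ)) * (1 - 2 * (1/(n:ℝ))) ≤ (ff n : ℝ) / gg n ∧
      (ff n : ℝ) / gg n ≤ q n (n/2) / ((1 - 12 * (2 * Real.log n + 3)^2 / (n:ℝ)) * (1 - 2 * (1/(n:ℝ)))) := by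
  filter_upwards [eps_lim.eventually (gt_mem_nhds (show (0:ℝ) < 1/2 by norm_num)), eventually_ge_atTop 10] with n he hn
  have hn1 : 1 ≤ n := by omega
  have hn0 : (10:ℝ) ≤ n := by exact_mod_cast hn
  set ε : ℝ := 12 * (2 * Real.log n + 3)^2 / (n:ℝ) with hεdef
  set K : ℕ := Nat.log 2 n + 1 with hK
  have hnK : n < 2^K := Nat.lt_pow_succ_log_self (by norm_num) n
  have hlog0 : 0 ≤ Real.log n := Real.log_nonneg (by linarith)
  have hKlog : (K:ℝ) ≤ 2 * Real.log n + 1 := by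
    have h1 : ((2:ℝ))^(Nat.log 2 n) ≤ n := by exact_mod_cast Nat.pow_log_le_self 2 (by omega)
    have h2 := Real.log_le_log (by positivity) h1
    rw [Real.log_pow] at h2
    have h3 := Real.log_two_gt_d9
    have h4 : (0:ℝ) ≤ (Nat.log 2 n : ℝ) := by positivity
    rw [hK]; push_cast
    nlinarith
  have hK0 : (1:ℝ) ≤ K := by rw [hK]; push_cast; have : (0:ℝ) ≤ (Nat.log 2 n : ℝ) := by positivity
                             linarith
  set t : ℝ := (2 * (K:ℝ) + 2)/n with ht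
  have h6t : 6 * t ≤ ε := by
    rw [ht, hεdef, ← mul_div_assoc]
    apply div_le_div_of_nonneg_right _ (by linarith)
    nlinarith
  have hDK : 6 * K * t ≤ ε := by
    rw [ht, hεdef, ← mul_div_assoc]
    apply div_le_div_of_nonneg_right _ (by linarith)
    nlinarith
  have h6t1 : 6 * t ≤ 1 := by linarith
  have hKn : K + 1 ≤ n/2 := by
    have h1 : 6 * (2 * (K:ℝ) + 2) ≤ n := by
      have h2 := h6t1
      rw [ht, ← mul_div_assoc, div_le_one (by linarith)] at h2
      exact h2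
    have h2 : 6 * (2 * K + 2) ≤ n := by exact_mod_cast h1
    omega
  have hbs := bb_summable n hn1
  obtain ⟨has, hcc⟩ := aZ_tsum n hn1
  set w : Finset ℤ := Finset.Icc (((n/2 : ℕ) : ℤ) - K) (((n/2 : ℕ) : ℤ) + K) with hw
  have tb := tail hbs (fun k => (bb_pos n hn1 k).le) w (1/(n:ℝ)) (by positivity)
    (fun k hk => bb_tail n K (by omega) hnK k hk)
  have ta := tail has (fun k => aZ_nonneg n hn1 k) w (1/(n:ℝ)) (by positivity)
    (fun k hk => aZ_tail n K (by omega) hnK k hk)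
  have lb : ∑ k ∈ w, bb n k ≤ ∑' k, bb n k := hbs.sum_le_tsum w (fun k _ => (bb_pos n hn1 k).le)
  have la : ∑ k ∈ w, aZ n k ≤ ∑' k, aZ n k := has.sum_le_tsum w (fun k _ => aZ_nonneg n hn1 k)
  have hBpos : 0 < ∑' k, bb n k := hbs.tsum_pos (fun k => (bb_pos n hn1 k).le) 0 (bb_pos n hn1 0)
  have hwin : ∀ k ∈ w, q n (n/2) * (1 - ε) * bb n k ≤ aZ n k ∧ aZ n k * (1 - ε) ≤ q n (n/2) * bb n k := by
    intro k hk
    rw [hw, Finset.mem_Icc] at hk
    have hk0 : 0 ≤ k := by omega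
    obtain ⟨r, rfl⟩ := Int.eq_ofNat_of_zero_le hk0
    have e0 : aZ n (r:ℤ) = q n r * bb n r := by unfold aZ; rw [if_pos hk0]; simp
    obtain ⟨h1, h2⟩ := q_window n K t hn1 hKn rfl h6t1 r (by omega) (by omega)
    have hb := (bb_pos n hn1 r).le
    have hq := q_nonneg n r
    have hqm := q_nonneg n (n/2)
    rw [e0]
    constructor
    · apply mul_le_mul_of_nonneg_right _ hb
      refine le_trans ?_ h1
      apply mul_le_mul_of_nonneg_left _ hqm
      linarith
    · rw [mul_right_comm]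
      apply mul_le_mul_of_nonneg_right _ hb
      refine le_trans ?_ h2
      apply mul_le_mul_of_nonneg_left _ hq
      linarith
  have s1 : q n (n/2) * (1 - ε) * ∑ k ∈ w, bb n k ≤ ∑ k ∈ w, aZ n k := by
    rw [Finset.mul_sum]
    exact Finset.sum_le_sum (fun k hk => (hwin k hk).1)
  have s2 : (∑ k ∈ w, aZ n k) * (1 - ε) ≤ q n (n/2) * ∑ k ∈ w, bb n k := by
    rw [Finset.mul_sum, Finset.sum_mul]
    exact Finset.sum_le_sum (fun k hk => (hwin k hk).2)
  have hratio : (ff n : ℝ) / gg n = (∑' k, aZ n k) / (∑' k, bb n k) := by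
    unfold gg
    rw [← hcc]
    have hc := cc_pos n hn1
    field_simp
  rw [hratio]
  have hqm := q_nonneg n (n/2)
  have h2n : 2 * (1/(n:ℝ)) ≤ 1/2 := by
    rw [one_div, ← div_eq_mul_inv, div_le_iff₀ (by linarith)]
    linarith
  have hρ0 : 0 < 1 - 2 * (1/(n:ℝ)) := by linarith
  have hε0 : 0 < 1 - ε := by linarith
  generalize 2 * (1/(n:ℝ)) = ρ at *
  generalize (∑' k, aZ n k) = A at *
  generalize (∑' k, bb n k) = B at *
  generalize (∑ k ∈ w, bb n k) = Bw at *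
  generalize (∑ k ∈ w, aZ n k) = Aw at *
  have tb' : (1 - ρ) * B ≤ Bw := by linarith
  have ta' : (1 - ρ) * A ≤ Aw := by linarith
  constructor
  · rw [le_div_iff₀ hBpos]
    calc q n (n/2) * (1 - ε) * (1 - ρ) * B = q n (n/2) * (1 - ε) * ((1 - ρ) * B) := by ring
      _ ≤ q n (n/2) * (1 - ε) * Bw := mul_le_mul_of_nonneg_left tb' (by positivity)
      _ ≤ Aw := s1
      _ ≤ A := la
  · rw [div_le_div_iff₀ hBpos (by positivity)]
    calc A * ((1 - ε) * (1 - ρ)) = ((1 - ρ) * A) * (1 - ε) := by ring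
      _ ≤ Aw * (1 - ε) := mul_le_mul_of_nonneg_right ta' hε0.le
      _ ≤ q n (n/2) * Bw := s2
      _ ≤ q n (n/2) * B := mul_le_mul_of_nonneg_left lb hqm

/-- the closed form of the sum, with the error `O((log n)² / n)` -/
theorem ff_gg_rate : ∀ᶠ n : ℕ in atTop,
    |(ff n : ℝ) / gg n - 1| ≤ 990 * (Real.log n)^2 / n ∧ (ff n : ℝ) / gg n ≤ 2 := by
  filter_upwards [ff_gg_bounds, eps_lim.eventually (gt_mem_nhds (show (0:ℝ) < 1/100 by norm_num)),
    eventually_ge_atTop 1000] with n hb he hn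
  obtain ⟨h1, h2⟩ := hb
  have hn0 : (1000:ℝ) ≤ n := by exact_mod_cast hn
  have hnp : (0:ℝ) < n := by linarith
  have hq := q_center_rate n (by omega)
  have hL : 1 ≤ Real.log n := by
    rw [Real.le_log_iff_exp_le hnp]
    have := Real.exp_one_lt_d9
    linarith
  have hin : (0:ℝ) < 1 / n := by positivity
  have hin1 : (1:ℝ) / n ≤ 1 / 1000 := one_div_le_one_div_of_le (by norm_num) hn0
  have e9 : (9:ℝ) / n = 9 * (1 / n) := by ring
  rw [e9] at hq
  have e1 : 12 * (2 * Real.log n + 3)^2 / (n:ℝ) = 12 * (2 * Real.log n + 3)^2 * (1 / n) := by ring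
  have e2 : 990 * (Real.log n)^2 / (n:ℝ) = 990 * (Real.log n)^2 * (1 / n) := by ring
  rw [e1] at he h1 h2
  rw [e2]
  have hgoal : 3 * (12 * (2 * Real.log n + 3)^2 * (1 / n) + 11 * (1 / (n:ℝ))) ≤
      990 * (Real.log n)^2 * (1 / n) := by
    have h3 : 3 * (12 * (2 * Real.log n + 3)^2 + 11) ≤ 990 * (Real.log n)^2 := by nlinarith
    calc 3 * (12 * (2 * Real.log n + 3)^2 * (1 / n) + 11 * (1 / (n:ℝ)))
        = 3 * (12 * (2 * Real.log n + 3)^2 + 11) * (1 / n) := by ring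
      _ ≤ _ := mul_le_mul_of_nonneg_right h3 hin.le
  have hε0 : 0 ≤ 12 * (2 * Real.log n + 3)^2 * (1 / (n:ℝ)) := by positivity
  generalize 12 * (2 * Real.log n + 3)^2 * (1 / (n:ℝ)) = ε at *
  generalize (1:ℝ) / n = d at *
  generalize (ff n : ℝ) / gg n = x at *
  obtain ⟨hq1, hq2⟩ := abs_le.1 hq
  generalize q n (n/2) = Q at *
  have ha : 1 - ε - 2 * d ≤ (1 - ε) * (1 - 2 * d) := by nlinarith
  have ha1 : (1 - ε) * (1 - 2 * d) ≤ 1 := by nlinarith
  have ha0 : (9:ℝ)/10 ≤ (1 - ε) * (1 - 2 * d) := by linarith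
  have hup : x ≤ 1 + 3 * (ε + 11 * d) := by
    refine h2.trans ?_
    rw [div_le_iff₀ (by linarith)]
    have h5 : (1 + 3 * (ε + 11 * d)) * (1 - ε - 2 * d) ≤
        (1 + 3 * (ε + 11 * d)) * ((1 - ε) * (1 - 2 * d)) :=
      mul_le_mul_of_nonneg_left ha (by linarith)
    refine le_trans ?_ h5
    have h6 : 0 ≤ ε + 2 * d := by linarith
    have h7 : 0 ≤ ε + 11 * d := by linarith
    have h8 : (ε + 11 * d) * (ε + 2 * d) ≤ (ε + 11 * d) * (3/100) :=
      mul_le_mul_of_nonneg_left (by linarith) h7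
    nlinarith
  have hlow : 1 - 3 * (ε + 11 * d) ≤ x := by
    refine le_trans ?_ h1
    have h5 : (1 - 9 * d) * ((1 - ε) * (1 - 2 * d)) ≤ Q * ((1 - ε) * (1 - 2 * d)) :=
      mul_le_mul_of_nonneg_right (by linarith) (by linarith)
    have h6 : (1 - 9 * d) * ((1 - ε) * (1 - 2 * d)) ≥ (1 - ε) * (1 - 2 * d) - 9 * d := by
      nlinarith
    rw [mul_assoc]
    linarith
  constructor
  · rw [abs_le]
    constructor <;> linarith
  · linarith

end Pool.Agent.Y415.RB
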